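import Pool.Agent.Helper89.GW.Stmts

/-!
# NP3: region 3, and common tools for SLAB
-/

set_option autoImplicit false
set_option linter.unusedVariables false

open scoped ContDiff Topology
open Set Filter

namespace GW

theorem np3_chk3X : chk3X = true := by
  set_option maxRecDepth 100000 in
  decide +kernel

theorem np3_chk3XA : chk3XA = true := by
  set_option maxRecDepth 100000 in
  decide +kernel

theorem np3_chk3XB : chk3XB = true := by
  set_option maxRecDepth 100000 in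
  decide +kernel

theorem np3_chk3AB : chk3AB = true := by
  set_option maxRecDepth 100000 in
  decide +kernel

/-! ### elements -/

theorem np3_elX {e : El} {x : ℝ} (h : e.mem x) (h1 : 13 / 4 < x) (h2 : x < 31 / 4) : e ∈ X3 := by
  cases e with
  | near c =>
    simp only [El.mem] at h
    rw [abs_lt] at h
    have hc1 : (3 : ℝ) < c := by linarith [h.2]
    have hc2 : (c : ℝ) < 8 := by linarith [h.1]
    have hc1' : 3 < c := by exact_mod_cast hc1
    have hc2' : c < 8 := by exact_mod_cast hc2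
    interval_cases c <;> decide
  | cell c =>
    simp only [El.mem] at h
    have hc1 : (2 : ℝ) < c := by linarith [h.2]
    have hc2 : (c : ℝ) < 8 := by linarith [h.1]
    have hc1' : 2 < c := by exact_mod_cast hc1
    have hc2' : c < 8 := by exact_mod_cast hc2
    interval_cases c <;> decide

theorem np3_elT {e : El} {x : ℝ} (h : e.mem x) (h1 : 33 / 4 < x) (h2 : x ≤ 12) : e ∈ T3 := by
  cases e with
  | near c =>
    simp only [El.mem] at h
    rw [abs_lt] at h
    have hc1 : (8 : ℝ) < c := by linarith [h.2]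
    have hc2 : (c : ℝ) < 13 := by linarith [h.1]
    have hc1' : 8 < c := by exact_mod_cast hc1
    have hc2' : c < 13 := by exact_mod_cast hc2
    interval_cases c <;> decide
  | cell c =>
    simp only [El.mem] at h
    have hc1 : (7 : ℝ) < c := by linarith [h.2]
    have hc2 : (c : ℝ) < 12 := by linarith [h.1]
    have hc1' : 7 < c := by exact_mod_cast hc1
    have hc2' : c < 12 := by exact_mod_cast hc2
    interval_cases c <;> decide

theorem np3_ndX : ∀ X ∈ X3, ∀ c ∈ X.nd, 3 ≤ c ∧ c ≤ 8 := by decide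

theorem np3_ndT : ∀ X ∈ T3, ∀ c ∈ X.nd, 8 ≤ c ∧ c ≤ 16 := by decide

/-! ### signs -/

theorem np3_supneg {z : ℤ → ℤ → ℤ} (hz : SupI z) : SupI (fun c k => -z c k) := by
  intro c k h
  apply hz c k
  intro h0
  apply h
  simp [h0]

theorem np3_sSame1 (hS : ST_SIGN) {z : ℤ → ℤ → ℤ} {X T : El} {x t : ℝ} (hz : SupI z)
    (hX : X.mem x) (hT : T.mem t) (h : sSame [z] X T = true) : dX (sp z) (x, t) ≠ 0 := by
  simp only [sSame, List.all_cons, List.all_nil, Bool.and_true, Bool.or_eq_true] at h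
  obtain ⟨h1, h2, -⟩ := hS z X T x t hz hX hT
  rcases h with h | h
  · exact (h1 h).ne'
  · exact (h2 h).ne

theorem np3_rSame1 (hS : ST_SIGN) {z : ℤ → ℤ → ℤ} {X T : El} {x t : ℝ} (hz : SupI z)
    (hX : X.mem x) (hT : T.mem t) (h : rSame [z] X T = true) : dT (sp z) (x, t) ≠ 0 := by
  simp only [rSame, List.all_cons, List.all_nil, Bool.and_true, Bool.or_eq_true] at h
  obtain ⟨-, -, h1, h2, -⟩ := hS z X T x t hz hX hT
  rcases h with h | h
  · exact (h1 h).ne'
  · exact (h2 h).ne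

theorem np3_sSame2 (hS : ST_SIGN) {z w : ℤ → ℤ → ℤ} {X T : El} {x t : ℝ} (hz : SupI z)
    (hw : SupI w)
    (hX : X.mem x) (hT : T.mem t) (h : sSame [z, w] X T = true) :
    (0 < dX (sp z) (x, t) ∧ 0 < dX (sp w) (x, t)) ∨
    (dX (sp z) (x, t) < 0 ∧ dX (sp w) (x, t) < 0) := by
  simp only [sSame, List.all_cons, List.all_nil, Bool.and_true, Bool.or_eq_true,
    Bool.and_eq_true] at h
  obtain ⟨h1, h2, -⟩ := hS z X T x t hz hX hT
  obtain ⟨g1, g2, -⟩ := hS w X T x t hw hX hT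
  rcases h with h | h
  · exact Or.inl ⟨h1 h.1, g1 h.2⟩
  · exact Or.inr ⟨h2 h.1, g2 h.2⟩

theorem np3_absent (hS : ST_SIGN) {z : ℤ → ℤ → ℤ} {X T : El} {x t : ℝ} (hz : SupI z)
    (hX : X.mem x) (hT : T.mem t) (h : absent z X T = true) : sp z (x, t) = 0 := by
  obtain ⟨-, -, -, -, h1, -⟩ := hS z X T x t hz hX hT
  exact h1 h

theorem np3_full (hS : ST_SIGN) {z : ℤ → ℤ → ℤ} {X T : El} {x t : ℝ} (hz : SupI z)
    (hX : X.mem x) (hT : T.mem t) (h0 : ∀ c ∈ X.nd, ∀ k ∈ T.nd, 0 ≤ z c k)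
    (h : full z X T = true) : 1 / 16 ≤ sp z (x, t) := by
  obtain ⟨-, -, -, -, -, h1, -⟩ := hS z X T x t hz hX hT
  exact h1 h0 h

/-! ### linear combinations -/

theorem np3_lin (hL : ST_SLIN) (m b u : ℤ → ℤ → ℤ) (s s' : ℤ) (v : ℤ → ℤ → ℤ)
    (hm : SupI m) (hb : SupI b) (hu : SupI u)
    (hv : ∀ c k, v c k = m c k + s' * b c k - s * u c k) (z : ℝ × ℝ) :
    SupI v ∧ sp v z = sp m z + s' * sp b z - s * sp u z ∧
      dX (sp v) z = dX (sp m) z + s' * dX (sp b) z - s * dX (sp u) z ∧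
      dT (sp v) z = dT (sp m) z + s' * dT (sp b) z - s * dT (sp u) z := by
  have hv' : v = fun c k => m c k + s' * b c k - s * u c k := by
    funext c k
    exact hv c k
  rw [hv']
  exact hL m b u s s' z hm hb hu

section deriv

variable {f g : ℝ × ℝ → ℝ} {z : ℝ × ℝ}

theorem np3_dX_add (hf : DifferentiableAt ℝ f z) (hg : DifferentiableAt ℝ g z) :
    dX (fun y => f y + g y) z = dX f z + dX g z := by
  unfold dX
  rw [fderiv_fun_add hf hg]
  rfl

theorem np3_dT_add (hf : DifferentiableAt ℝ f z) (hg : DifferentiableAt ℝ g z) :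
    dT (fun y => f y + g y) z = dT f z + dT g z := by
  unfold dT
  rw [fderiv_fun_add hf hg]
  rfl

theorem np3_dX_sub (hf : DifferentiableAt ℝ f z) (hg : DifferentiableAt ℝ g z) :
    dX (fun y => f y - g y) z = dX f z - dX g z := by
  unfold dX
  rw [fderiv_fun_sub hf hg]
  rfl

theorem np3_dT_sub (hf : DifferentiableAt ℝ f z) (hg : DifferentiableAt ℝ g z) :
    dT (fun y => f y - g y) z = dT f z - dT g z := by
  unfold dT
  rw [fderiv_fun_sub hf hg]
  rfl

theorem np3_dX_mul (c : ℝ) (hf : DifferentiableAt ℝ f z) :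
    dX (fun y => c * f y) z = c * dX f z := by
  unfold dX
  rw [fderiv_const_mul hf c]
  simp

theorem np3_dT_mul (c : ℝ) (hf : DifferentiableAt ℝ f z) :
    dT (fun y => c * f y) z = c * dT f z := by
  unfold dT
  rw [fderiv_const_mul hf c]
  simp

theorem np3_dX_neg : dX (fun y => -f y) z = -dX f z := by
  unfold dX
  rw [fderiv_fun_neg]
  simp

theorem np3_dT_neg : dT (fun y => -f y) z = -dT f z := by
  unfold dT
  rw [fderiv_fun_neg]
  simp

theorem np3_dX_const (c : ℝ) : dX (fun _ => c) z = 0 := by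
  unfold dX
  simp

theorem np3_dT_const (c : ℝ) : dT (fun _ => c) z = 0 := by
  unfold dT
  simp

end deriv

theorem np3_diff (hP : ST_SPD) {v : ℤ → ℤ → ℤ} (hv : SupI v) (z : ℝ × ℝ) :
    DifferentiableAt ℝ (sp v) z :=
  ((hP v hv).1.differentiable (by simp)).differentiableAt

theorem np3_dXuX (hP : ST_SPD) (hD : ST_DAT) (z : ℝ × ℝ) :
    dX uX z = (dX (sp pI) z - dX (sp qI) z) / 2 := by
  have h : uX = fun y => (1 / 2 : ℝ) * (sp pI y - sp qI y) := by
    funext y
    unfold uX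
    ring
  have hp := np3_diff hP hD.1.2.2.2.2.1 z
  have hq := np3_diff hP hD.1.2.2.2.2.2.1 z
  rw [h, np3_dX_mul (f := fun y => sp pI y - sp qI y) _ (hp.sub hq), np3_dX_sub hp hq]
  ring

theorem np3_dTuX (hP : ST_SPD) (hD : ST_DAT) (z : ℝ × ℝ) :
    dT uX z = (dT (sp pI) z - dT (sp qI) z) / 2 := by
  have h : uX = fun y => (1 / 2 : ℝ) * (sp pI y - sp qI y) := by
    funext y
    unfold uX
    ring
  have hp := np3_diff hP hD.1.2.2.2.2.1 z
  have hq := np3_diff hP hD.1.2.2.2.2.2.1 z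
  rw [h, np3_dT_mul (f := fun y => sp pI y - sp qI y) _ (hp.sub hq), np3_dT_sub hp hq]
  ring

theorem np3_dXphX (hP : ST_SPD) (hD : ST_DAT) (z : ℝ × ℝ) :
    dX phX z = (dX (sp pI) z + dX (sp qI) z) / 2 := by
  have h : phX = fun y => (1 / 2 : ℝ) * (sp pI y + sp qI y) := by
    funext y
    unfold phX
    ring
  have hp := np3_diff hP hD.1.2.2.2.2.1 z
  have hq := np3_diff hP hD.1.2.2.2.2.2.1 z
  rw [h, np3_dX_mul (f := fun y => sp pI y + sp qI y) _ (hp.add hq), np3_dX_add hp hq]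
  ring

theorem np3_dXpsA (hP : ST_SPD) (hD : ST_DAT) (z : ℝ × ℝ) :
    dX psA z = -dX (sp aI) z := by
  have ha := np3_diff hP hD.1.1 z
  unfold psA
  rw [np3_dX_add (f := fun y => -sp aI y) (g := fun _ => kk) ha.neg (differentiableAt_const _),
    np3_dX_neg, np3_dX_const]
  ring

theorem np3_dXpsB (hP : ST_SPD) (hD : ST_DAT) (z : ℝ × ℝ) :
    dX psB z = dX (sp mI) z - dX (sp bI) z := by
  have hm := np3_diff hP hD.1.2.2.2.1 z
  have hb := np3_diff hP hD.1.2.2.1 z
  unfold psB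
  rw [np3_dX_add (f := fun y => sp mI y - sp bI y) (g := fun _ => 3 * kk) (hm.sub hb)
    (differentiableAt_const _), np3_dX_sub hm hb, np3_dX_const]
  ring

/-- difference of the sheets near the hole -/
theorem np3_pq (hL : ST_SLIN) (hD : ST_DAT) (z : ℝ × ℝ) :
    SupI (fun c k => pI c k - qI c k) ∧
      sp (fun c k => pI c k - qI c k) z = sp pI z - sp qI z ∧
      dX (sp fun c k => pI c k - qI c k) z = dX (sp pI) z - dX (sp qI) z ∧
      dT (sp fun c k => pI c k - qI c k) z = dT (sp pI) z - dT (sp qI) z := by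
  have hp := hD.1.2.2.2.2.1
  have hq := hD.1.2.2.2.2.2.1
  obtain ⟨h1, h2, h3, h4⟩ := np3_lin hL pI qI qI 1 0 (fun c k => pI c k - qI c k) hp hq hq
    (fun c k => by ring) z
  refine ⟨h1, ?_, ?_, ?_⟩
  · rw [h2]; push_cast; ring
  · rw [h3]; push_cast; ring
  · rw [h4]; push_cast; ring

/-- consequences of `s ^ 2 = hh (u / ee)` -/
theorem np3_hh (hH : ST_HHF) {u s : ℝ} (hs : s ^ 2 = hh (u / ee)) :
    0 < u ∧ -1 ≤ s ∧ s ≤ 1 ∧ (ee ≤ u → s = 1 ∨ s = -1) := by
  obtain ⟨-, h1, h2, -, h3, -⟩ := hH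
  have hee : (0 : ℝ) < ee := by unfold ee; norm_num
  refine ⟨?_, ?_, ?_, ?_⟩
  · by_contra hu
    push Not at hu
    have h4 : u / ee ≤ 0 := div_nonpos_of_nonpos_of_nonneg hu hee.le
    have h5 := h1 (u / ee) (by linarith)
    have h6 := sq_nonneg s
    linarith
  · have := h3 (u / ee)
    nlinarith
  · have := h3 (u / ee)
    nlinarith
  · intro hu
    have h4 : 1 ≤ u / ee := by
      rw [le_div_iff₀ hee]
      linarith
    have h5 := h2 _ h4
    rw [h5] at hs
    have h6 : (s - 1) * (s + 1) = 0 := by nlinarith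
    rcases mul_eq_zero.mp h6 with h | h
    · left; linarith
    · right; linarith

theorem np3_conv {a b s : ℝ} (h1 : -1 ≤ s) (h2 : s ≤ 1) (ha : 0 < a) (hb : 0 < b) :
    0 < (1 + s) / 2 * a + (1 - s) / 2 * b := by
  rcases le_total 0 s with h | h
  · have h3 : 0 < (1 + s) / 2 * a := mul_pos (by linarith) ha
    have h4 : 0 ≤ (1 - s) / 2 * b := mul_nonneg (by linarith) hb.le
    linarith
  · have h3 : 0 ≤ (1 + s) / 2 * a := mul_nonneg (by linarith) ha.le
    have h4 : 0 < (1 - s) / 2 * b := mul_pos (by linarith) hb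
    linarith

/-- the pair check -/
theorem np3_pairX (hS : ST_SIGN) (hP : ST_SPD) (hL : ST_SLIN) (hH : ST_HHF) (hD : ST_DAT)
    {X T : El} {x t : ℝ} (hX : X.mem x) (hT : T.mem t) (hX3 : X ∈ X3) (hT3 : T ∈ T3)
    (g : ℤ → ℤ → ℤ) (hg : SupI g) (h : pairX pI qI g X T = true) (s : ℝ)
    (hs : s ^ 2 = hh (uX (x, t) / ee)) :
    dX phX (x, t) + s * dX uX (x, t) ≠ dX (sp g) (x, t) := by
  have hp := hD.1.2.2.2.2.1
  have hq := hD.1.2.2.2.2.2.1
  obtain ⟨hpq1, hpq2, hpq3, hpq4⟩ := np3_pq hL hD (x, t)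
  obtain ⟨hu, hs1, hs2, hs3⟩ := np3_hh hH hs
  have hux : uX (x, t) = sp (fun c k => pI c k - qI c k) (x, t) / 2 := by
    rw [hpq2]; rfl
  obtain ⟨gp1, -, gp3, -⟩ := np3_lin hL pI g g 1 0 (fun c k => pI c k - g c k) hp hg hg
    (fun c k => by ring) (x, t)
  obtain ⟨gq1, -, gq3, -⟩ := np3_lin hL qI g g 1 0 (fun c k => qI c k - g c k) hq hg hg
    (fun c k => by ring) (x, t)
  have e1 : dX phX (x, t) + s * dX uX (x, t) - dX (sp g) (x, t) =
      (1 + s) / 2 * dX (sp fun c k => pI c k - g c k) (x, t) +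
      (1 - s) / 2 * dX (sp fun c k => qI c k - g c k) (x, t) := by
    rw [gp3, gq3, np3_dXphX hP hD, np3_dXuX hP hD]
    push_cast
    ring
  intro hcon
  rw [hcon, sub_self] at e1
  unfold pairX at h
  rw [Bool.or_eq_true] at h
  rcases h with h | h
  · have := np3_absent hS hpq1 hX hT h
    rw [hux, this] at hu
    norm_num at hu
  · split_ifs at h with hf
    · have h16 := np3_full hS hpq1 hX hT (fun c hc k hk => by
        have h1 := np3_ndX X hX3 c hc
        have h2 := np3_ndT T hT3 k hk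
        have := hD.2.2.1.2.2.2 c k h1.1 h1.2 h2.1 h2.2
        show 0 ≤ pI c k - qI c k
        linarith) hf
      have h17 : ee ≤ uX (x, t) := by
        rw [hux]
        unfold ee
        linarith
      rw [Bool.and_eq_true] at h
      have k1 := np3_sSame1 hS gp1 hX hT h.1
      have k2 := np3_sSame1 hS gq1 hX hT h.2
      rcases hs3 h17 with rfl | rfl
      · apply k1
        linarith
      · apply k2
        linarith
    · rcases np3_sSame2 hS gp1 gq1 hX hT h with ⟨k1, k2⟩ | ⟨k1, k2⟩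
      · have := np3_conv hs1 hs2 k1 k2
        linarith
      · have := np3_conv hs1 hs2 (neg_pos.mpr k1) (neg_pos.mpr k2)
        linarith

/-- the case `t ≤ 12` -/
theorem np3_low (hD : ST_DAT) (hE : ST_ELEM) (hS : ST_SIGN) (hL : ST_SLIN) (hH : ST_HHF)
    (hP : ST_SPD) (z : ℝ × ℝ) (hz : O3 z) (ht : z.2 ≤ 12) :
    (0 < uX z → dX uX z ≠ 0 ∨ dT uX z ≠ 0) ∧
    (∀ s : ℝ, s ^ 2 = hh (uX z / ee) →
      dX phX z + s * dX uX z ≠ dX psA z ∧ dX phX z + s * dX uX z ≠ dX psB z) ∧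
    dX psA z ≠ dX psB z := by
  obtain ⟨x, t⟩ := z
  obtain ⟨hz1, hz2, hz3, hz4⟩ := hz
  simp only at hz1 hz2 hz3 hz4 ht
  obtain ⟨X, hX⟩ := hE.1 x
  obtain ⟨T, hT⟩ := hE.1 t
  have hX3 := np3_elX hX hz1 hz2
  have hT3 := np3_elT hT hz3 ht
  have hA := hD.1.1
  have hB := hD.1.2.2.1
  have hM := hD.1.2.2.2.1
  obtain ⟨hpq1, hpq2, hpq3, hpq4⟩ := np3_pq hL hD (x, t)
  have hux : uX (x, t) = sp (fun c k => pI c k - qI c k) (x, t) / 2 := by
    rw [hpq2]; rfl
  refine ⟨?_, ?_, ?_⟩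
  · intro hu
    have h := np3_chk3X
    unfold chk3X at h
    rw [List.all_eq_true] at h
    have h := h X hX3
    rw [List.all_eq_true] at h
    have h := h T hT3
    unfold own at h
    rw [Bool.or_eq_true, Bool.or_eq_true] at h
    rcases h with (h | h) | h
    · have := np3_absent hS hpq1 hX hT h
      rw [hux, this] at hu
      norm_num at hu
    · left
      have := np3_sSame1 hS hpq1 hX hT h
      rw [hpq3] at this
      rw [np3_dXuX hP hD]
      intro h0
      apply this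
      linarith
    · right
      have := np3_rSame1 hS hpq1 hX hT h
      rw [hpq4] at this
      rw [np3_dTuX hP hD]
      intro h0
      apply this
      linarith
  · intro s hs
    constructor
    · have h := np3_chk3XA
      unfold chk3XA at h
      rw [List.all_eq_true] at h
      have h := h X hX3
      rw [List.all_eq_true] at h
      have h := h T hT3
      obtain ⟨g1, g2, g3, g4⟩ := np3_lin hL aI aI aI 2 0 (fun c k => -aI c k) hA hA hA
        (fun c k => by ring) (x, t)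
      have h3 := np3_pairX hS hP hL hH hD hX hT hX3 hT3 _ g1 h s hs
      rw [np3_dXpsA hP hD]
      rw [g3] at h3
      intro h0
      apply h3
      rw [h0]
      push_cast
      ring
    · have h := np3_chk3XB
      unfold chk3XB at h
      rw [List.all_eq_true] at h
      have h := h X hX3
      rw [List.all_eq_true] at h
      have h := h T hT3
      obtain ⟨g1, g2, g3, g4⟩ := np3_lin hL mI bI bI 1 0 (fun c k => mI c k - bI c k) hM hB hB
        (fun c k => by ring) (x, t)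
      have h3 := np3_pairX hS hP hL hH hD hX hT hX3 hT3 _ g1 h s hs
      rw [np3_dXpsB hP hD]
      rw [g3] at h3
      intro h0
      apply h3
      rw [h0]
      push_cast
      ring
  · have h := np3_chk3AB
    unfold chk3AB at h
    rw [List.all_eq_true] at h
    have h := h X hX3
    rw [List.all_eq_true] at h
    have h := h T hT3
    obtain ⟨g1, g2, g3, g4⟩ := np3_lin hL mI aI bI 1 1 (fun c k => mI c k - bI c k + aI c k)
      hM hA hB (fun c k => by ring) (x, t)
    have h3 := np3_sSame1 hS g1 hX hT h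
    rw [g3] at h3
    rw [np3_dXpsA hP hD, np3_dXpsB hP hD]
    intro h0
    apply h3
    push_cast
    linarith

/-- reflection -/
theorem np3_refl (hD : ST_DAT) (hR : ST_SREF) (hP : ST_SPD) (x t : ℝ) :
    uX (x, 24 - t) = uX (x, t) ∧ dX uX (x, 24 - t) = dX uX (x, t) ∧
    dT uX (x, 24 - t) = -dT uX (x, t) ∧ dX phX (x, 24 - t) = dX phX (x, t) ∧
    dX psA (x, 24 - t) = dX psA (x, t) ∧ dX psB (x, 24 - t) = dX psB (x, t) := by
  obtain ⟨⟨hA, hA', hB, hM, hp, hq, hx⟩, ⟨sA, sA', sB, sM, sP, sQ, sx⟩, -⟩ := id hD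
  obtain ⟨a1, a2, a3⟩ := hR aI hA sA x t
  obtain ⟨b1, b2, b3⟩ := hR bI hB sB x t
  obtain ⟨m1, m2, m3⟩ := hR mI hM sM x t
  obtain ⟨p1, p2, p3⟩ := hR pI hp sP x t
  obtain ⟨q1, q2, q3⟩ := hR qI hq sQ x t
  refine ⟨?_, ?_, ?_, ?_, ?_, ?_⟩
  · unfold uX
    rw [p1, q1]
  · rw [np3_dXuX hP hD, np3_dXuX hP hD, p2, q2]
  · rw [np3_dTuX hP hD, np3_dTuX hP hD, p3, q3]
    ring
  · rw [np3_dXphX hP hD, np3_dXphX hP hD, p2, q2]
  · rw [np3_dXpsA hP hD, np3_dXpsA hP hD, a2]
  · rw [np3_dXpsB hP hD, np3_dXpsB hP hD, m2, b2]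

/-- NP3 -/
theorem st_NP3 (hD : ST_DAT) (hE : ST_ELEM) (hS : ST_SIGN) (hL : ST_SLIN) (hR : ST_SREF)
    (hH : ST_HHF) (hP : ST_SPD) : ST_NP3 := by
  have key : ∀ z, O3 z → (0 < uX z → dX uX z ≠ 0 ∨ dT uX z ≠ 0) ∧
      (∀ s : ℝ, s ^ 2 = hh (uX z / ee) →
        dX phX z + s * dX uX z ≠ dX psA z ∧ dX phX z + s * dX uX z ≠ dX psB z) ∧
      dX psA z ≠ dX psB z := by
    intro z hz
    rcases le_total z.2 12 with ht | ht
    · exact np3_low hD hE hS hL hH hP z hz ht
    · obtain ⟨x, t⟩ := z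
      obtain ⟨hz1, hz2, hz3, hz4⟩ := hz
      simp only at hz1 hz2 hz3 hz4 ht
      have h := np3_low hD hE hS hL hH hP (x, 24 - t) ⟨hz1, hz2, by simp only; linarith,
        by simp only; linarith⟩ (by simp only; linarith)
      obtain ⟨r1, r2, r3, r4, r5, r6⟩ := np3_refl hD hR hP x t
      rw [r1, r2, r3, r4, r5, r6, neg_ne_zero] at h
      exact h
  exact ⟨fun z hz => (key z hz).1, fun z s hz => (key z hz).2.1 s, fun z hz => (key z hz).2.2⟩

end GW
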