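import Pool.Agent.Helper74.GW.NP3

/-!
# SLAB: the crossings over the slab are negative
-/

set_option autoImplicit false
set_option linter.unusedVariables false

open scoped ContDiff Topology
open Set Filter

namespace GW

theorem slab_chkSA : chkSA = true := by
  set_option maxRecDepth 100000 in
  decide +kernel

theorem slab_chkSB : chkSB = true := by
  set_option maxRecDepth 100000 in
  decide +kernel

theorem slab_chkSAB : chkSAB = true := by
  set_option maxRecDepth 100000 in
  decide +kernel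

theorem slab_chkSC : chkSC = true := by
  set_option maxRecDepth 100000 in
  decide +kernel

theorem slab_chkSX : chkSX = true := by
  set_option maxRecDepth 100000 in
  decide +kernel

/-- where both ribbons live the array `xI` is flat in the direction `x` -/
def slabFl : Bool := allX.all fun X => absent aI' X (El.cell 11) || absent bI X (El.cell 11) ||
  X.iv.all fun c => (El.cell 11).nd.all fun k => decide (xI c k = xI (c + 1) k)

theorem slab_fl : slabFl = true := by
  set_option maxRecDepth 100000 in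
  decide +kernel

theorem slab_full : full aI' (El.near 11) (El.cell 11) = true ∧
    full bI (El.near (-5)) (El.cell 11) = true ∧
    full aI' (El.near 8) (El.cell 11) = true ∧ full bI (El.near 8) (El.cell 11) = true := by
  set_option maxRecDepth 100000 in
  decide +kernel

theorem slab_flT : (∀ c ∈ (El.near 8).nd, ∀ k ∈ (El.cell 11).iv, xI c k = xI c (k + 1)) ∧
    (∀ c ∈ (El.near 8).iv, ∀ k ∈ (El.cell 11).nd, xI c k = xI (c + 1) k) ∧
    (∀ c ∈ (El.near 8).nd, ∀ k ∈ (El.cell 11).nd, -1 ≤ -xI c k) ∧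
    (∀ c ∈ (El.near 8).nd, ∀ k ∈ (El.cell 11).nd, 26 ≤ aI' c k - mI c k + bI c k) := by
  set_option maxRecDepth 100000 in
  decide +kernel

/-! ### elements -/

theorem slab_tg (T : List (List ℤ)) {c : ℤ} (k : ℤ) (h : c < -7 ∨ 13 < c) : tg T c k = 0 := by
  unfold tg
  rw [if_neg]
  rintro ⟨h1, h2, -⟩
  omega

theorem slab_absent_out {c : ℤ} (h : c < -7 ∨ 13 < c) (k : ℤ) : aI' c k = 0 ∧ bI c k = 0 := by
  constructor
  · unfold aI'
    split_ifs
    · rfl
    · exact slab_tg _ k h
  · exact slab_tg _ k h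

theorem slab_elX (e : El) : e ∈ allX ∨ ∀ c ∈ e.nd, c < -7 ∨ 13 < c := by
  cases e with
  | near c =>
    by_cases h : -9 ≤ c ∧ c ≤ 15
    · left
      obtain ⟨h1, h2⟩ := h
      interval_cases c <;> decide
    · right
      intro d hd
      simp only [El.nd, List.mem_cons, List.not_mem_nil, or_false] at hd
      omega
  | cell c =>
    by_cases h : -9 ≤ c ∧ c ≤ 15
    · left
      obtain ⟨h1, h2⟩ := h
      interval_cases c <;> decide
    · right
      intro d hd
      simp only [El.nd, List.mem_cons, List.not_mem_nil, or_false] at hd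
      omega

theorem slab_out {e T : El} (h : ∀ c ∈ e.nd, c < -7 ∨ 13 < c) :
    absent aI' e T = true ∧ absent bI e T = true := by
  unfold absent
  simp only [List.all_eq_true, decide_eq_true_eq]
  exact ⟨fun c hc k _ => (slab_absent_out (h c hc) k).1,
    fun c hc k _ => (slab_absent_out (h c hc) k).2⟩

theorem slab_hole {e : El} {x t : ℝ} (h : e.mem x) (ht : 45 / 4 < t) (ht' : t < 47 / 4)
    (hO : O2 (x, t)) : inHole e (El.cell 11) = false := by
  by_contra hc
  rw [Bool.not_eq_false] at hc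
  unfold inHole at hc
  rw [Bool.and_eq_true] at hc
  have h1 := of_decide_eq_true hc.1
  obtain ⟨-, -, hO⟩ := hO
  apply hO
  have h2 : e = El.near 4 ∨ e = El.cell 4 ∨ e = El.near 5 ∨ e = El.cell 5 ∨ e = El.near 6 ∨
      e = El.cell 6 ∨ e = El.near 7 := by
    have h3 : holeX = [El.near 4, El.cell 4, El.near 5, El.cell 5, El.near 6, El.cell 6,
      El.near 7] := by decide
    rw [h3] at h1
    simpa using h1
  rcases h2 with rfl | rfl | rfl | rfl | rfl | rfl | rfl <;>
    simp only [El.mem, abs_lt] at h <;> obtain ⟨ha, hb⟩ := h <;> push_cast at ha hb <;>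
    refine ⟨?_, ?_, ?_, ?_⟩ <;> simp only <;> linarith

/-! ### flat arrays -/

theorem slab_flatX (hP : ST_SPD) (hE : ST_ELEM) (hA : ST_LAM) {z : ℤ → ℤ → ℤ} (hz : SupI z)
    {X T : El} {x t : ℝ} (hX : X.mem x) (hT : T.mem t)
    (h : ∀ c ∈ X.iv, ∀ k ∈ T.nd, z c k = z (c + 1) k) : dX (sp z) (x, t) = 0 := by
  rw [(hP z hz).2.2.1 x t]
  apply Finset.sum_eq_zero
  intro c hc
  apply Finset.sum_eq_zero
  intro k hk
  by_cases h1 : c ∈ X.iv
  · by_cases h2 : k ∈ T.nd
    · rw [h c h1 k h2]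
      ring
    · have h3 : ¬ 0 < Lam (t - k) := fun h4 => h2 (((hE.2 T t hT).2.1 k).mp h4)
      have h4 : Lam (t - k) = 0 := le_antisymm (not_lt.mp h3) (hA.2.2.2.2.1 _)
      rw [h4]
      ring
  · have h3 : ¬ 0 < Bx (x - c) := fun h4 => h1 (((hE.2 X x hX).1 c).mp h4)
    have h4 : Bx (x - c) = 0 := le_antisymm (not_lt.mp h3) (hA.2.2.2.1 _)
    rw [h4]
    ring

theorem slab_flatT (hP : ST_SPD) (hE : ST_ELEM) (hA : ST_LAM) {z : ℤ → ℤ → ℤ} (hz : SupI z)
    {X T : El} {x t : ℝ} (hX : X.mem x) (hT : T.mem t)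
    (h : ∀ c ∈ X.nd, ∀ k ∈ T.iv, z c k = z c (k + 1)) : dT (sp z) (x, t) = 0 := by
  rw [(hP z hz).2.2.2 x t]
  apply Finset.sum_eq_zero
  intro c hc
  apply Finset.sum_eq_zero
  intro k hk
  by_cases h1 : c ∈ X.nd
  · by_cases h2 : k ∈ T.iv
    · rw [h c h1 k h2]
      ring
    · have h3 : ¬ 0 < Bx (t - k) := fun h4 => h2 (((hE.2 T t hT).1 k).mp h4)
      have h4 : Bx (t - k) = 0 := le_antisymm (not_lt.mp h3) (hA.2.2.2.1 _)
      rw [h4]
      ring
  · have h3 : ¬ 0 < Lam (x - c) := fun h4 => h1 (((hE.2 X x hX).2.1 c).mp h4)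
    have h4 : Lam (x - c) = 0 := le_antisymm (not_lt.mp h3) (hA.2.2.2.2.1 _)
    rw [h4]
    ring

/-! ### derivatives of `mR` -/

theorem slab_dXmR (hP : ST_SPD) (hD : ST_DAT) (z : ℝ × ℝ) :
    dX mR z = dX (sp mI) z + 2 * kk * dX (sp xI) z := by
  have hm := np3_diff hP hD.1.2.2.2.1 z
  have hx := np3_diff hP hD.1.2.2.2.2.2.2 z
  unfold mR
  rw [np3_dX_add (f := sp mI) (g := fun y => 2 * kk * sp xI y) hm (hx.const_mul _),
    np3_dX_mul _ hx]

theorem slab_dTmR (hP : ST_SPD) (hD : ST_DAT) (z : ℝ × ℝ) :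
    dT mR z = dT (sp mI) z + 2 * kk * dT (sp xI) z := by
  have hm := np3_diff hP hD.1.2.2.2.1 z
  have hx := np3_diff hP hD.1.2.2.2.2.2.2 z
  unfold mR
  rw [np3_dT_add (f := sp mI) (g := fun y => 2 * kk * sp xI y) hm (hx.const_mul _),
    np3_dT_mul _ hx]

/-! ### pairs -/

/-- `s` is a convex combination of the entries of `l` -/
def SlabCv (l : List ℤ) (s : ℝ) : Prop :=
  (∃ a ∈ l, (a : ℝ) = s) ∨ ((1 : ℤ) ∈ l ∧ (-1 : ℤ) ∈ l ∧ -1 ≤ s ∧ s ≤ 1)

theorem slab_cv_pos {l : List ℤ} {s : ℝ} (hc : SlabCv l s) {p q : ℝ}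
    (h : ∀ a ∈ l, 0 < p + (a : ℝ) * q) : 0 < p + s * q := by
  rcases hc with ⟨a, ha, rfl⟩ | ⟨h1, h2, h3, h4⟩
  · exact h a ha
  · have k1 := h 1 h1
    have k2 := h (-1) h2
    push_cast at k1 k2
    have := np3_conv h3 h4 k1 k2
    linarith

theorem slab_hts {f : Bool} {s : ℝ} (h1 : -1 ≤ s) (h2 : s ≤ 1)
    (h3 : f = true → s = 1 ∨ s = -1) : ∃ l ∈ hts f, SlabCv l s := by
  cases f with
  | false =>
    refine ⟨[1, -1], by simp [hts], Or.inr ⟨by simp, by simp, h1, h2⟩⟩
  | true =>
    rcases h3 rfl with rfl | rfl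
    · exact ⟨[1], by simp [hts], Or.inl ⟨1, by simp, by simp⟩⟩
    · exact ⟨[-1], by simp [hts], Or.inl ⟨-1, by simp, by simp⟩⟩

theorem slab_pair (hS : ST_SIGN) (hL : ST_SLIN) {u m b : ℤ → ℤ → ℤ} {X T : El} {x t : ℝ}
    (hu : SupI u) (hm : SupI m) (hb : SupI b) (hX : X.mem x) (hT : T.mem t)
    (hu0 : ∀ c k, 0 ≤ u c k) (hb0 : ∀ c k, 0 ≤ b c k) (h : pair false u m b X T = true)
    {s s' : ℝ} (hup : 0 < sp u (x, t)) (hbp : 0 < sp b (x, t))
    (s1 : -1 ≤ s) (s2 : s ≤ 1) (s3 : ee ≤ sp u (x, t) → s = 1 ∨ s = -1)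
    (s1' : -1 ≤ s') (s2' : s' ≤ 1) (s3' : ee ≤ sp b (x, t) → s' = 1 ∨ s' = -1) :
    dX (sp m) (x, t) + s' * dX (sp b) (x, t) - s * dX (sp u) (x, t) ≠ 0 := by
  unfold pair at h
  rw [Bool.or_eq_true, Bool.or_eq_true] at h
  rcases h with (h | h) | h
  · have := np3_absent hS hu hX hT h
    rw [this] at hup
    exact absurd hup (lt_irrefl _)
  · have := np3_absent hS hb hX hT h
    rw [this] at hbp
    exact absurd hbp (lt_irrefl _)
  · obtain ⟨l, hl, hcl⟩ := slab_hts (f := full u X T) s1 s2 (fun hf => s3 (by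
      have := np3_full hS hu hX hT (fun c _ k _ => hu0 c k) hf
      unfold ee
      linarith))
    obtain ⟨l', hl', hcl'⟩ := slab_hts (f := full b X T) s1' s2' (fun hf => s3' (by
      have := np3_full hS hb hX hT (fun c _ k _ => hb0 c k) hf
      unfold ee
      linarith))
    rw [List.all_eq_true] at h
    have h := h l hl
    rw [List.all_eq_true] at h
    have h := h l' hl'
    simp only [Bool.false_and, Bool.or_false] at h
    unfold sSame at h
    rw [Bool.or_eq_true, List.all_eq_true, List.all_eq_true] at h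
    have hmem : ∀ a ∈ l, ∀ a' ∈ l', (fun c k => m c k + a' * b c k - a * u c k) ∈
        l.flatMap fun s => l'.map fun s' => fun c k => m c k + s' * b c k - s * u c k := by
      intro a ha a' ha'
      rw [List.mem_flatMap]
      exact ⟨a, ha, List.mem_map.mpr ⟨a', ha', rfl⟩⟩
    rcases h with h | h
    · have h1 : ∀ a ∈ l, ∀ a' ∈ l', 0 < dX (sp m) (x, t) + (a' : ℝ) * dX (sp b) (x, t) -
          (a : ℝ) * dX (sp u) (x, t) := by
        intro a ha a' ha'
        obtain ⟨e1, -, e3, -⟩ := hL m b u a a' (x, t) hm hb hu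
        rw [← e3]
        exact (hS _ X T x t e1 hX hT).1 (h _ (hmem a ha a' ha'))
      have h2 : ∀ a ∈ l, 0 < dX (sp m) (x, t) + s' * dX (sp b) (x, t) -
          (a : ℝ) * dX (sp u) (x, t) := by
        intro a ha
        have := slab_cv_pos hcl' (p := dX (sp m) (x, t) - (a : ℝ) * dX (sp u) (x, t))
          (q := dX (sp b) (x, t)) (fun a' ha' => by have := h1 a ha a' ha'; linarith)
        linarith
      have h3 := slab_cv_pos hcl (p := dX (sp m) (x, t) + s' * dX (sp b) (x, t))
        (q := -dX (sp u) (x, t)) (fun a ha => by have := h2 a ha; linarith)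
      intro h0
      linarith
    · have h1 : ∀ a ∈ l, ∀ a' ∈ l', 0 < -(dX (sp m) (x, t) + (a' : ℝ) * dX (sp b) (x, t) -
          (a : ℝ) * dX (sp u) (x, t)) := by
        intro a ha a' ha'
        obtain ⟨e1, -, e3, -⟩ := hL m b u a a' (x, t) hm hb hu
        rw [← e3]
        have := (hS _ X T x t e1 hX hT).2.1 (h _ (hmem a ha a' ha'))
        linarith
      have h2 : ∀ a ∈ l, 0 < -(dX (sp m) (x, t) + s' * dX (sp b) (x, t) -
          (a : ℝ) * dX (sp u) (x, t)) := by
        intro a ha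
        have := slab_cv_pos hcl' (p := -(dX (sp m) (x, t) - (a : ℝ) * dX (sp u) (x, t)))
          (q := -dX (sp b) (x, t)) (fun a' ha' => by have := h1 a ha a' ha'; linarith)
        linarith
      have h3 := slab_cv_pos hcl (p := -(dX (sp m) (x, t) + s' * dX (sp b) (x, t)))
        (q := dX (sp u) (x, t)) (fun a ha => by have := h2 a ha; linarith)
      intro h0
      linarith

/-! ### crossings of a join with itself -/

theorem slab_gg (hH : ST_HHF) {u : ℝ} (hu : ee ≤ u) : ee * gg (u / ee) = u - kk := by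
  have hee : (0 : ℝ) < ee := by unfold ee; norm_num
  have h1 : 1 ≤ u / ee := by
    rw [le_div_iff₀ hee]
    linarith
  rw [hH.2.2.2.2.2.2.2.1 _ h1]
  unfold kk
  field_simp
  ring

theorem slab_own (hH : ST_HHF) (φ u : ℝ × ℝ → ℝ) (a b : E × ℝ) (ha : a ∈ Jn φ u)
    (hb : b ∈ Jn φ u) (h0 : a.1 0 = b.1 0) (h1 : a.1 1 = b.1 1) (h2 : a.1 2 = b.1 2)
    (h3 : b.1 3 < a.1 3)
    (h : 0 < u (pr a.1) → dX u (pr a.1) ≠ 0 ∨ (dT u (pr a.1) < 0 ∧ ee ≤ u (pr a.1))) :
    a.2 < b.2 := by
  have hpr : pr b.1 = pr a.1 := by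
    unfold pr
    rw [h0, h2]
  obtain ⟨s, hs, e1, e3, e⟩ := ha
  obtain ⟨s', hs', e1', e3', e'⟩ := hb
  rw [hpr] at hs' e1' e3' e'
  obtain ⟨hu, -, -, hs1⟩ := np3_hh hH hs
  have hss : (s' - s) * (s' + s) = 0 := by nlinarith
  rcases mul_eq_zero.mp hss with hc | hc
  · have : s' = s := by linarith
    rw [this] at e3'
    rw [e3, e3'] at h3
    exact absurd h3 (lt_irrefl _)
  · have hs2 : s' = -s := by linarith
    rw [hs2] at e1' e3' e'
    have h5 : s * dX u (pr a.1) = 0 := by linarith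
    rcases mul_eq_zero.mp h5 with h6 | h6
    · rw [e3, e3', h6] at h3
      simp at h3
    · rcases h hu with h7 | ⟨h7, h8⟩
      · exact absurd h6 h7
      · rcases hs1 h8 with rfl | rfl
        · exfalso
          rw [e3, e3'] at h3
          linarith
        · rw [slab_gg hH h8] at e e'
          rw [neg_neg, Real.sign_one] at e'
          rw [Real.sign_of_neg (by norm_num : (-1 : ℝ) < 0)] at e
          have hk := hH.2.2.2.2.2.2.2.2.2.2.2.2
          rw [e, e']
          linarith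

/-! ### the facts on the slab -/

theorem slab_A (hS : ST_SIGN) (hD : ST_DAT) {X : El} {x t : ℝ} (hX : X.mem x)
    (hT : (El.cell 11).mem t) (ht : 45 / 4 < t) (ht' : t < 47 / 4) (hO : O2 (x, t))
    (hu : 0 < uA' (x, t)) : dX uA' (x, t) ≠ 0 ∨ (dT uA' (x, t) < 0 ∧ ee ≤ uA' (x, t)) := by
  have hz := hD.1.2.1
  rcases slab_elX X with hm | hm
  · have h := slab_chkSA
    unfold chkSA at h
    rw [List.all_eq_true] at h
    have h := h X hm
    rw [slab_hole hX ht ht' hO, Bool.false_or, Bool.or_eq_true] at h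
    rcases h with h | h
    · have hX11 : X = El.near 11 := of_decide_eq_true h
      subst hX11
      right
      have h2 := slab_chkSC
      unfold chkSC at h2
      simp only [Bool.and_eq_true] at h2
      refine ⟨(hS aI' _ _ x t hz hX hT).2.2.2.1 h2.1.1.2, ?_⟩
      have := np3_full hS hz hX hT (fun c _ k _ => hD.2.2.1.2.1 c k) slab_full.1
      unfold uA' ee
      linarith
    · unfold ownS at h
      rw [Bool.or_eq_true] at h
      rcases h with h | h
      · have := np3_absent hS hz hX hT h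
        unfold uA' at hu
        rw [this] at hu
        exact absurd hu (lt_irrefl _)
      · left
        exact np3_sSame1 hS hz hX hT h
  · have := np3_absent hS hz hX hT (slab_out hm).1
    unfold uA' at hu
    rw [this] at hu
    exact absurd hu (lt_irrefl _)

theorem slab_B (hS : ST_SIGN) (hD : ST_DAT) {X : El} {x t : ℝ} (hX : X.mem x)
    (hT : (El.cell 11).mem t) (ht : 45 / 4 < t) (ht' : t < 47 / 4) (hO : O2 (x, t))
    (hu : 0 < uB (x, t)) : dX uB (x, t) ≠ 0 ∨ (dT uB (x, t) < 0 ∧ ee ≤ uB (x, t)) := by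
  have hz := hD.1.2.2.1
  rcases slab_elX X with hm | hm
  · have h := slab_chkSB
    unfold chkSB at h
    rw [List.all_eq_true] at h
    have h := h X hm
    rw [slab_hole hX ht ht' hO, Bool.false_or, Bool.or_eq_true] at h
    rcases h with h | h
    · have hX11 : X = El.near (-5) := of_decide_eq_true h
      subst hX11
      right
      have h2 := slab_chkSC
      unfold chkSC at h2
      simp only [Bool.and_eq_true] at h2
      refine ⟨(hS bI _ _ x t hz hX hT).2.2.2.1 h2.1.2, ?_⟩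
      have := np3_full hS hz hX hT (fun c _ k _ => hD.2.2.1.2.2.1 c k) slab_full.2.1
      unfold uB ee
      linarith
    · unfold ownS at h
      rw [Bool.or_eq_true] at h
      rcases h with h | h
      · have := np3_absent hS hz hX hT h
        unfold uB at hu
        rw [this] at hu
        exact absurd hu (lt_irrefl _)
      · left
        exact np3_sSame1 hS hz hX hT h
  · have := np3_absent hS hz hX hT (slab_out hm).2
    unfold uB at hu
    rw [this] at hu
    exact absurd hu (lt_irrefl _)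

/-- the two ribbons meet only near `x = 8` -/
theorem slab_AB (hS : ST_SIGN) (hD : ST_DAT) (hL : ST_SLIN) (hH : ST_HHF) (hP : ST_SPD)
    (hE : ST_ELEM) (hA : ST_LAM) {X : El} {x t : ℝ} (hX : X.mem x)
    (hT : (El.cell 11).mem t) (ht : 45 / 4 < t) (ht' : t < 47 / 4) (hO : O2 (x, t))
    {s s' : ℝ} (hs : s ^ 2 = hh (uA' (x, t) / ee)) (hs' : s' ^ 2 = hh (uB (x, t) / ee))
    (h : s * dX uA' (x, t) = dX mR (x, t) + s' * dX uB (x, t)) :
    X = El.near 8 ∧ s = 1 ∧ s' = -1 := by
  have za := hD.1.2.1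
  have zb := hD.1.2.2.1
  have zm := hD.1.2.2.2.1
  have zx := hD.1.2.2.2.2.2.2
  obtain ⟨hu, s1, s2, s3⟩ := np3_hh hH hs
  obtain ⟨hu', s1', s2', s3'⟩ := np3_hh hH hs'
  have ma : X ∈ allX := by
    rcases slab_elX X with hm | hm
    · exact hm
    · have := np3_absent hS za hX hT (slab_out hm).1
      unfold uA' at hu
      rw [this] at hu
      exact absurd hu (lt_irrefl _)
  have hxI : dX (sp xI) (x, t) = 0 := by
    have h1 := slab_fl
    unfold slabFl at h1
    rw [List.all_eq_true] at h1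
    have h1 := h1 X ma
    rw [Bool.or_eq_true, Bool.or_eq_true] at h1
    rcases h1 with (h1 | h1) | h1
    · have := np3_absent hS za hX hT h1
      unfold uA' at hu
      rw [this] at hu
      exact absurd hu (lt_irrefl _)
    · have := np3_absent hS zb hX hT h1
      unfold uB at hu'
      rw [this] at hu'
      exact absurd hu' (lt_irrefl _)
    · simp only [List.all_eq_true, decide_eq_true_eq] at h1
      exact slab_flatX hP hE hA zx hX hT h1
  have h0 : dX (sp mI) (x, t) + s' * dX (sp bI) (x, t) - s * dX (sp aI') (x, t) = 0 := by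
    rw [slab_dXmR hP hD, hxI] at h
    unfold uA' uB at h
    linarith
  have h1 := slab_chkSAB
  unfold chkSAB at h1
  rw [List.all_eq_true] at h1
  have h1 := h1 X ma
  rw [slab_hole hX ht ht' hO, Bool.false_or, Bool.or_eq_true] at h1
  rcases h1 with h1 | h1
  · have hX8 : X = El.near 8 := of_decide_eq_true h1
    refine ⟨hX8, ?_⟩
    subst hX8
    have fa : ee ≤ uA' (x, t) := by
      have := np3_full hS za hX hT (fun c _ k _ => hD.2.2.1.2.1 c k) slab_full.2.2.1
      unfold uA' ee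
      linarith
    have fb : ee ≤ uB (x, t) := by
      have := np3_full hS zb hX hT (fun c _ k _ => hD.2.2.1.2.2.1 c k) slab_full.2.2.2
      unfold uB ee
      linarith
    have h2 := slab_chkSC
    unfold chkSC at h2
    simp only [Bool.and_eq_true] at h2
    obtain ⟨⟨⟨⟨⟨c1, c2⟩, c3⟩, -⟩, -⟩, -⟩ := h2
    obtain ⟨g1, -, g3, -⟩ := np3_lin hL mI bI aI' 1 1 (fun c k => mI c k + bI c k - aI' c k)
      zm zb za (fun c k => by ring) (x, t)
    obtain ⟨k1, -, k3, -⟩ := np3_lin hL mI bI aI' (-1) 1 (fun c k => mI c k + bI c k + aI' c k)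
      zm zb za (fun c k => by ring) (x, t)
    obtain ⟨l1, -, l3, -⟩ := np3_lin hL mI bI aI' (-1) (-1)
      (fun c k => mI c k - bI c k + aI' c k) zm zb za (fun c k => by ring) (x, t)
    have d1 := np3_sSame1 hS g1 hX hT c1
    have d2 := np3_sSame1 hS k1 hX hT c2
    have d3 := np3_sSame1 hS l1 hX hT c3
    rw [g3] at d1
    rw [k3] at d2
    rw [l3] at d3
    push_cast at d1 d2 d3
    rcases s3 fa with rfl | rfl
    · rcases s3' fb with rfl | rfl
      · exact absurd h0 d1
      · exact ⟨rfl, rfl⟩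
    · rcases s3' fb with rfl | rfl
      · exact absurd h0 d2
      · exact absurd h0 d3
  · exact absurd h0 (slab_pair hS hL za zm zb hX hT (fun c k => hD.2.2.1.2.1 c k)
      (fun c k => hD.2.2.1.2.2.1 c k) h1 hu hu' s1 s2 s3 s1' s2' s3')

/-- heights and potentials at the crossings near `x = 8` -/
theorem slab_8 (hS : ST_SIGN) (hD : ST_DAT) (hL : ST_SLIN) (hH : ST_HHF) (hP : ST_SPD)
    (hE : ST_ELEM) (hA : ST_LAM) {x t : ℝ} (hX : (El.near 8).mem x)
    (hT : (El.cell 11).mem t) :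
    dT uA' (x, t) - dT mR (x, t) + dT uB (x, t) < 0 ∧
    mR (x, t) - ee * gg (uB (x, t) / ee) < ee * gg (uA' (x, t) / ee) := by
  have za := hD.1.2.1
  have zb := hD.1.2.2.1
  have zm := hD.1.2.2.2.1
  have zx := hD.1.2.2.2.2.2.2
  have fa : ee ≤ uA' (x, t) := by
    have := np3_full hS za hX hT (fun c _ k _ => hD.2.2.1.2.1 c k) slab_full.2.2.1
    unfold uA' ee
    linarith
  have fb : ee ≤ uB (x, t) := by
    have := np3_full hS zb hX hT (fun c _ k _ => hD.2.2.1.2.2.1 c k) slab_full.2.2.2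
    unfold uB ee
    linarith
  obtain ⟨g1, g2, g3, g4⟩ := np3_lin hL aI' bI mI 1 1 (fun c k => aI' c k - mI c k + bI c k)
    za zb zm (fun c k => by ring) (x, t)
  constructor
  · have h2 := slab_chkSC
    unfold chkSC at h2
    simp only [Bool.and_eq_true] at h2
    have h3 := (hS _ _ _ x t g1 hX hT).2.2.2.1 h2.2
    rw [g4] at h3
    rw [slab_dTmR hP hD, slab_flatT hP hE hA zx hX hT slab_flT.1]
    unfold uA' uB
    push_cast at h3
    linarith
  · rw [slab_gg hH fa, slab_gg hH fb]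
    simp only [El.mem, abs_lt] at hX hT
    have hx1 : -8 ≤ x := by
      have := hX.1
      push_cast at this
      linarith
    have hx2 : x ≤ 14 := by
      have := hX.2
      push_cast at this
      linarith
    have ht1 : 0 ≤ t := by
      have := hT.1
      push_cast at this
      linarith
    have ht2 : t ≤ 24 := by
      have := hT.2
      push_cast at this
      linarith
    have hX' : (El.near 8).mem x := by
      simp only [El.mem, abs_lt]
      exact hX
    have hT' : (El.cell 11).mem t := hT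
    have h3 := (hS _ _ _ x t g1 hX' hT').2.2.2.2.2.2 26 slab_flT.2.2.2 hx1 hx2 ht1 ht2
    obtain ⟨x1, x2, -, -⟩ := np3_lin hL xI xI xI 2 0 (fun c k => -xI c k)
      zx zx zx (fun c k => by ring) (x, t)
    have h4 := (hS _ _ _ x t x1 hX' hT').2.2.2.2.2.2 (-1) slab_flT.2.2.1 hx1 hx2 ht1 ht2
    rw [g2] at h3
    rw [x2] at h4
    push_cast at h3 h4
    have hk0 := hH.2.2.2.2.2.2.2.2.2.2.2.1
    have hk := hH.2.2.2.2.2.2.2.2.2.2.2.2
    have hk1 : kk < 1 / 100 := hk
    have h5 : kk * sp xI (x, t) ≤ kk * 1 := mul_le_mul_of_nonneg_left (by linarith) hk0.le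
    unfold mR uA' uB
    linarith

/-- crossings over the hole -/
theorem slab_X (hS : ST_SIGN) (hD : ST_DAT) (hL : ST_SLIN) (hP : ST_SPD)
    {X : El} {x t : ℝ} (hX : X.mem x) (hX3 : X ∈ X3)
    (hT : (El.cell 11).mem t)
    (hu : 0 < uX (x, t)) : dX uX (x, t) ≠ 0 := by
  obtain ⟨hpq1, hpq2, hpq3, hpq4⟩ := np3_pq hL hD (x, t)
  have hux : uX (x, t) = sp (fun c k => pI c k - qI c k) (x, t) / 2 := by
    rw [hpq2]; rfl
  have h := slab_chkSX
  unfold chkSX at h
  rw [List.all_eq_true] at h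
  have h := h X hX3
  unfold ownS at h
  rw [Bool.or_eq_true] at h
  rcases h with h | h
  · have := np3_absent hS hpq1 hX hT h
    rw [hux, this] at hu
    norm_num at hu
  · have := np3_sSame1 hS hpq1 hX hT h
    rw [hpq3] at this
    rw [np3_dXuX hP hD]
    intro h0
    apply this
    linarith

/-- SLAB -/
theorem st_SLAB (hREG : ST_REG) (hS : ST_SIGN) (hL : ST_SLIN) (hE : ST_ELEM) (hD : ST_DAT)
    (hH : ST_HHF) (hN : ST_NP3) (hP : ST_SPD) (hA : ST_LAM) : ST_SLAB := by
  intro a ha b hb ht ht' h0 h1 h2 h3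
  have hpr : pr b.1 = pr a.1 := by
    unfold pr
    rw [h0, h2]
  obtain ⟨r0, r1, r2, r3⟩ := hREG
  obtain ⟨X, hX⟩ := hE.1 (a.1 0)
  have hT : (El.cell 11).mem (a.1 2) := by
    simp only [El.mem]
    push_cast
    constructor <;> linarith
  have hz : pr a.1 = (a.1 0, a.1 2) := rfl
  rcases r0 (pr a.1) with hO | hO | hO
  · exfalso
    rcases hO with hO | hO
    · have : a.1 2 < 15 / 4 := hO
      linarith
    · have : 81 / 4 < a.1 2 := hO
      linarith
  · have ha' := (r2 a hO).mp ha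
    have hb' := (r2 b (by rw [hpr]; exact hO)).mp hb
    rcases ha' with ha' | ha' <;> rcases hb' with hb' | hb'
    · apply slab_own hH _ _ a b ha' hb' h0 h1 h2 h3
      rw [hz]
      exact slab_A hS hD hX hT ht ht' hO
    · exfalso
      obtain ⟨s, hs, e1, e3, e⟩ := ha'
      obtain ⟨s', hs', e1', e3', e'⟩ := hb'
      rw [hpr] at hs' e1' e3' e'
      rw [np3_dX_const, zero_add] at e1
      rw [np3_dT_const, zero_add] at e3
      obtain ⟨rfl, rfl, rfl⟩ := slab_AB hS hD hL hH hP hE hA hX hT ht ht' hO hs hs'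
        (by rw [← hz]; rw [← e1, ← e1']; exact h1)
      have h8 := (slab_8 hS hD hL hH hP hE hA hX hT).1
      rw [← hz] at h8
      rw [e3, e3'] at h3
      linarith
    · obtain ⟨s', hs', e1', e3', e'⟩ := ha'
      obtain ⟨s, hs, e1, e3, e⟩ := hb'
      rw [hpr] at hs e1 e3 e
      rw [np3_dX_const, zero_add] at e1
      rw [np3_dT_const, zero_add] at e3
      obtain ⟨rfl, rfl, rfl⟩ := slab_AB hS hD hL hH hP hE hA hX hT ht ht' hO hs hs'
        (by rw [← hz]; rw [← e1, ← e1']; exact h1.symm)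
      have h8 := (slab_8 hS hD hL hH hP hE hA hX hT).2
      rw [← hz] at h8
      rw [Real.sign_of_neg (by norm_num : (-1 : ℝ) < 0)] at e'
      rw [Real.sign_one] at e
      rw [e, e']
      linarith
    · apply slab_own hH _ _ a b ha' hb' h0 h1 h2 h3
      rw [hz]
      exact slab_B hS hD hX hT ht ht' hO
  · have ha' := (r3 a hO).mp ha
    have hb' := (r3 b (by rw [hpr]; exact hO)).mp hb
    obtain ⟨n1, n2, n3⟩ := hN
    have hX3 := np3_elX hX hO.1 hO.2.1
    rcases ha' with ha' | ha' | ha' <;> rcases hb' with hb' | hb' | hb'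
    · apply slab_own hH _ _ a b ha' hb' h0 h1 h2 h3
      rw [hz]
      exact fun hu => Or.inl (slab_X hS hD hL hP hX hX3 hT hu)
    · exfalso
      obtain ⟨s, hs, e1, -, -⟩ := ha'
      obtain ⟨e1', -, -⟩ := hb'
      rw [hpr] at e1'
      exact (n2 _ s hO hs).1 (by rw [← e1, ← e1']; exact h1)
    · exfalso
      obtain ⟨s, hs, e1, -, -⟩ := ha'
      obtain ⟨e1', -, -⟩ := hb'
      rw [hpr] at e1'
      exact (n2 _ s hO hs).2 (by rw [← e1, ← e1']; exact h1)
    · exfalso
      obtain ⟨s, hs, e1, -, -⟩ := hb'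
      obtain ⟨e1', -, -⟩ := ha'
      rw [hpr] at e1 hs
      exact (n2 _ s hO hs).1 (by rw [← e1, ← e1']; exact h1.symm)
    · exfalso
      obtain ⟨e1, e3, -⟩ := ha'
      obtain ⟨e1', e3', -⟩ := hb'
      rw [hpr] at e3'
      rw [e3, e3'] at h3
      exact lt_irrefl _ h3
    · exfalso
      obtain ⟨e1, e3, -⟩ := ha'
      obtain ⟨e1', e3', -⟩ := hb'
      rw [hpr] at e1'
      exact n3 _ hO (by rw [← e1, ← e1']; exact h1)
    · exfalso
      obtain ⟨s, hs, e1, -, -⟩ := hb'
      obtain ⟨e1', -, -⟩ := ha'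
      rw [hpr] at e1 hs
      exact (n2 _ s hO hs).2 (by rw [← e1, ← e1']; exact h1.symm)
    · exfalso
      obtain ⟨e1, e3, -⟩ := ha'
      obtain ⟨e1', e3', -⟩ := hb'
      rw [hpr] at e1'
      exact n3 _ hO (by rw [← e1, ← e1']; exact h1.symm)
    · exfalso
      obtain ⟨e1, e3, -⟩ := ha'
      obtain ⟨e1', e3', -⟩ := hb'
      rw [hpr] at e3'
      rw [e3, e3'] at h3
      exact lt_irrefl _ h3

end GW
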